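import Mathlib
import Pool.Agent.R333.Slow

/-!
# A pair with `γ = Γ_T ^ 2` which is infinitely often slowest

For `T = {(2, 3), (8, 9)}` one has `Γ_T = 3` and `γ_{8,9} = 9 = Γ_T ^ 2`, but `(8, 9)` lies in
`S_T(n)` for infinitely many `n`: the value `n` at the index `t = 4 i + 2` of the `(8, 9)`-walk with
starting values `1, 1` is not taken by any `(2, 3)`-walk at an index larger than `t`.
-/

set_option autoImplicit false

namespace Pool.Agent.Results.MP_c389b3_nt.BoundaryPair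

open Pool.Agent.R333.Slow

/-- the value of the `(8, 9)`-walk with starting values `1`, `1` at `2 i + 1` and `2 i + 2` -/
lemma w89 (i : ℕ) : 5 * w 8 9 1 1 (2 * i + 1) = 9 ^ (2 * i) + 4 ∧
    5 * w 8 9 1 1 (2 * i + 2) + 4 = 9 ^ (2 * i + 1) := by
  induction i with
  | zero => exact ⟨rfl, rfl⟩
  | succ i ih =>
    obtain ⟨h1, h2⟩ := ih
    have e1 : w 8 9 1 1 (2 * (i + 1) + 1) = 8 * w 8 9 1 1 (2 * i + 2) + 9 * w 8 9 1 1 (2 * i + 1) := by
      rw [show 2 * (i + 1) + 1 = 2 * i + 3 by ring, w_succ]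
    have e2 : w 8 9 1 1 (2 * (i + 1) + 2) = 8 * w 8 9 1 1 (2 * (i + 1) + 1) +
        9 * w 8 9 1 1 (2 * i + 2) := by
      rw [show 2 * (i + 1) + 2 = (2 * i + 1) + 3 by ring, w_succ,
        show 2 * i + 1 + 2 = 2 * (i + 1) + 1 by ring]
    have p1 : 9 ^ (2 * i + 1) = 9 * 9 ^ (2 * i) := by ring
    have p2 : 9 ^ (2 * (i + 1)) = 81 * 9 ^ (2 * i) := by ring
    have p3 : 9 ^ (2 * (i + 1) + 1) = 729 * 9 ^ (2 * i) := by ring
    constructor <;> omega

/-- the `(2, 3)`-walks in terms of the starting values -/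
lemma w23 (a b i : ℕ) : 4 * w 2 3 a b (2 * i + 1) + b = 3 ^ (2 * i) * (a + b) + 3 * a ∧
    4 * w 2 3 a b (2 * i + 2) + 3 * a = 3 ^ (2 * i + 1) * (a + b) + b := by
  induction i with
  | zero =>
    constructor
    · show 4 * a + b = _
      ring
    · show 4 * b + 3 * a = _
      ring
  | succ i ih =>
    obtain ⟨h1, h2⟩ := ih
    have e1 : w 2 3 a b (2 * (i + 1) + 1) = 2 * w 2 3 a b (2 * i + 2) + 3 * w 2 3 a b (2 * i + 1) := by
      rw [show 2 * (i + 1) + 1 = 2 * i + 3 by ring, w_succ]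
    have e2 : w 2 3 a b (2 * (i + 1) + 2) = 2 * w 2 3 a b (2 * (i + 1) + 1) +
        3 * w 2 3 a b (2 * i + 2) := by
      rw [show 2 * (i + 1) + 2 = (2 * i + 1) + 3 by ring, w_succ,
        show 2 * i + 1 + 2 = 2 * (i + 1) + 1 by ring]
    have p1 : 3 ^ (2 * i + 1) * (a + b) = 3 * (3 ^ (2 * i) * (a + b)) := by ring
    have p2 : 3 ^ (2 * (i + 1)) * (a + b) = 9 * (3 ^ (2 * i) * (a + b)) := by ring
    have p3 : 3 ^ (2 * (i + 1) + 1) * (a + b) = 27 * (3 ^ (2 * i) * (a + b)) := by ring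
    constructor <;> omega

/-- powers of `3` modulo `45` -/
lemma pow_mod (i : ℕ) : 3 ^ (4 * i + 2) % 45 = 9 := by
  induction i with
  | zero => norm_num
  | succ i ih =>
    rw [show 4 * (i + 1) + 2 = (4 * i + 2) + 4 by ring, pow_add, Nat.mul_mod, ih]
    norm_num

/-- the value at the index `4 i + 2` is not taken by a `(2, 3)`-walk at the index `4 i + 3` -/
lemma not_taken (i a b : ℕ) (ha : 1 ≤ a) (hb : 1 ≤ b) :
    w 2 3 a b (4 * i + 2 + 1) ≠ w 8 9 1 1 (4 * i + 2) := by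
  intro h
  have h1 := (w23 a b (2 * i + 1)).1
  have h2 := (w89 (2 * i)).2
  rw [show 2 * (2 * i + 1) + 1 = 4 * i + 2 + 1 by ring, show 2 * (2 * i + 1) = 4 * i + 2 by ring,
    h] at h1
  rw [show 2 * (2 * i) + 2 = 4 * i + 2 by ring, show 2 * (2 * i) + 1 = 4 * i + 1 by ring] at h2
  have hm := pow_mod i
  set X : ℕ := 3 ^ (4 * i + 2) with hX
  have hpow : 9 * 9 ^ (4 * i + 1) = X * X := by
    have : X * X = (3 ^ 2) ^ (4 * i + 2) := by
      rw [hX, ← pow_add, ← pow_mul]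
      congr 1
      ring
    rw [this]
    norm_num
    ring
  set n := w 8 9 1 1 (4 * i + 2) with hn
  -- `(X - 1) e = 180 a + 140` with `e = 4 (X + 1) - 45 (a + b)`
  have hX9 : 9 ≤ X := by
    rw [hX]
    calc 9 = 3 ^ 2 := by norm_num
      _ ≤ 3 ^ (4 * i + 2) := Nat.pow_le_pow_right (by norm_num) (by omega)
  obtain ⟨x, hx⟩ : ∃ x : ℤ, x = X := ⟨X, rfl⟩
  obtain ⟨A, hA⟩ : ∃ A : ℤ, A = a := ⟨a, rfl⟩
  obtain ⟨B, hB⟩ : ∃ B : ℤ, B = b := ⟨b, rfl⟩
  have hA1 : 1 ≤ A := by omega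
  have hB1 : 1 ≤ B := by omega
  have hx9 : 9 ≤ x := by omega
  have e1 : 4 * (n : ℤ) + B = x * (A + B) + 3 * A := by
    rw [hA, hB, hx]; exact_mod_cast h1
  have e2 : 9 * (5 * (n : ℤ) + 4) = x * x := by
    have : 9 * (5 * n + 4) = X * X := by rw [h2, hpow]
    rw [hx]; exact_mod_cast this
  set e : ℤ := 4 * (x + 1) - 45 * (A + B) with he
  have key : (x - 1) * e = 180 * A + 140 := by
    rw [he]
    linear_combination (-4) * e2 + 45 * e1
  have hmod : x % 45 = 9 := by omega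
  have hemod : e % 45 = 40 := by omega
  have hepos : 0 < e := by
    by_contra hcon
    push Not at hcon
    nlinarith
  have he40 : 40 ≤ e := by omega
  nlinarith

lemma gam23 : gam 2 3 = 3 := by
  unfold gam
  have : √(((2 : ℕ) : ℝ) ^ 2 + 4 * ((3 : ℕ) : ℝ)) = 4 := by
    rw [show ((2 : ℕ) : ℝ) ^ 2 + 4 * ((3 : ℕ) : ℝ) = 4 ^ 2 by norm_num]
    exact Real.sqrt_sq (by norm_num)
  rw [this]
  norm_num

lemma gam89 : gam 8 9 = 9 := by
  unfold gam
  have : √(((8 : ℕ) : ℝ) ^ 2 + 4 * ((9 : ℕ) : ℝ)) = 10 := by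
    rw [show ((8 : ℕ) : ℝ) ^ 2 + 4 * ((9 : ℕ) : ℝ) = 10 ^ 2 by norm_num]
    exact Real.sqrt_sq (by norm_num)
  rw [this]
  norm_num

/-- **Main theorem.** There are a nonempty set `T` of pairs of coprime positive integers and a pair
`p = (α, β) ∈ T` with `γ_{α,β} ≥ Γ_T ^ 2` (that is, `p ∉ R_T'`) which lies in `S_T(n)` for
infinitely many `n ≥ 1`. -/
theorem result : ∃ T : Set (ℕ × ℕ), T.Nonempty ∧
    (∀ p ∈ T, 1 ≤ p.1 ∧ 1 ≤ p.2 ∧ Nat.Coprime p.1 p.2) ∧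
    ∃ p ∈ T, GamT T ^ 2 ≤ gam p.1 p.2 ∧ {n : ℕ | 1 ≤ n ∧ p ∈ ST T n}.Infinite := by
  refine ⟨{(2, 3), (8, 9)}, ⟨(2, 3), by simp⟩, ?_, (8, 9), by simp, ?_, ?_⟩
  · intro p hp
    simp only [Set.mem_insert_iff, Set.mem_singleton_iff] at hp
    rcases hp with rfl | rfl <;> exact ⟨by norm_num, by norm_num, by norm_num⟩
  · rw [GamT_pair]
    show (min (gam 2 3) (gam 8 9)) ^ 2 ≤ gam 8 9
    rw [gam23, gam89]
    norm_num
  · have hmono : StrictMono (fun i : ℕ => w 8 9 1 1 (4 * i + 2)) := by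
      intro i j hij
      exact w_lt_of_lt (by norm_num) (by norm_num) le_rfl le_rfl (by omega) (by omega)
    refine (Set.infinite_range_of_injective hmono.injective).mono ?_
    rintro _ ⟨i, rfl⟩
    have hpos : 1 ≤ w 8 9 1 1 (4 * i + 2) := w_pos (by norm_num) le_rfl le_rfl _ (by omega)
    refine ⟨hpos, by simp, ?_⟩
    rw [sT_pair]
    symm
    apply max_eq_right
    show s 2 3 (w 8 9 1 1 (4 * i + 2)) ≤ s 8 9 (w 8 9 1 1 (4 * i + 2))
    calc s 2 3 (w 8 9 1 1 (4 * i + 2)) ≤ 4 * i + 2 :=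
          s_le (by norm_num) (by norm_num) hpos (fun a b ha hb => not_taken i a b ha hb)
      _ ≤ s 8 9 (w 8 9 1 1 (4 * i + 2)) :=
          le_s (by norm_num) (by norm_num) (by omega) le_rfl le_rfl rfl

end Pool.Agent.Results.MP_c389b3_nt.BoundaryPair
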